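import Pool.Agent.Y152.EQ.Main

/-!
# Bloch's conjecture for correspondences between surfaces: equivalent forms
-/

open CategoryTheory AlgebraicGeometry

universe u v w

namespace Pool.Agent.Results.MP_31564d_ag.EquivalentForms

open Pool.Agent.H914 Pool.Agent.H914.VarClass Pool.Agent.H914.VarClass.Obj Pool.Agent.W492.BB
  Pool.Agent.W550.Corr Pool.Agent.TH133 Pool.Agent.Y152.AS Pool.Agent.Y152.EQ

/-- Let `U` be a class of surfaces such that any two surfaces have a common cover in `U` and all
correspondences become linear combinations of morphisms on covers in `U` (for example all surfaces).
Bloch's conjecture Q1 for all correspondences between surfaces is equivalent to each of its special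
cases for self-correspondences `Z` of surfaces in `U` with `ᵗZ = -Z`, with `ᵗZ = Z`, with `Z ∘ Z`
degenerate; to the statements that the homologically degenerate self-correspondences of surfaces in
`U` act on `F^2 CH_0` as their transposes, that they act centrally, that automorphisms of the
transcendental motives of surfaces in `U` act faithfully on cohomology; and to Q1 for the linear
combinations of morphisms `R ⟶ T` of surfaces, `R` in `U`. -/
theorem result {k : Type u} [Field k] {𝒱 : VarClass k} {C : TheoryData.{u, v, 0} 𝒱 ℚ}
    [IsChowProj C] {K : Type w} [Field K] (H : WeilTheoryData.{u, v, w} C K) [IsWeilProj H]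
    (U : 𝒱.Obj → Prop) (hcov : HasCommonCovers C U) (hmap : HasMapPresentations C U) :
    List.TFAE [BlochConj H,
      BlochSelf H U (IsAntisymmetric C),
      BlochSelf H U (IsSymmetric C),
      BlochSelf H U (HasDegenerateSquare C),
      ActAsTransposes H U,
      ActCentrally H U,
      AutomorphismsFaithful H U,
      BlochMaps H U] :=
  main hcov hmap

end Pool.Agent.Results.MP_31564d_ag.EquivalentForms
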