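import Pool.Agent.Y148.OD.Facts
import Pool.Agent.Y148.OD.Corr2

/-!
# Bloch's conjecture for a correspondence: one large fibre is enough

Let `X` be an irreducible projective surface over the complex numbers and `Y` a projective variety
(any closed subset of a projective space, for example `Y = X`), and let `φ : B(X) → B(Y)` be a
homomorphism of the groups of zero-cycles modulo rational equivalence which is given by families of
zero-cycles: there are morphisms `f : X → Sᵐ(Y)` and `g : X → Sᵐ'(Y)` such that
`φ([x]) = f(x) - g(x)` in `B(Y)` for all `x`.  The homomorphism `Γ_*` given by a correspondence `Γ`
is of this form, at least after a blow-up of `X`, which does not change `B(X)`: the components of `Γ`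
which dominate `X` give rational maps from `X` to symmetric products, and the other components act as
zero.

Consider the maps `φ ∘ γ : Xⁿ → B(Y)`, `(x_1, …, x_n) ↦ φ([x_1] + … + [x_n])`.  The following are
equivalent:

1. `φ` is finite-dimensional: the codimensions in `Xⁿ` of the fibres of `φ ∘ γ` are bounded by a
   constant which does not depend on `n`;
2. for one `n` all the fibres of `φ ∘ γ` have positive dimension;
3. for one `n` there is one fibre of `φ ∘ γ` of dimension greater than `n`.

For a correspondence `Γ` on a non-singular surface `X`, (1) for `φ = Γ_*` is equivalent to
`Γ_* = 0` on the kernel of the Albanese map (Roitman): so Bloch's conjecture for `Γ` says that if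
`[Γ]_*^{2,0} = 0` then there is one algebraic family of dimension `n + 1` of effective zero-cycles of
degree `n` on `X` with the same image under `Γ_*`.  If `[Γ]_*^{2,0} ≠ 0` then all the fibres have
dimension at most `n` (Mumford); the theorem shows that this bound holds for all correspondences
which act non-trivially on the kernel of the Albanese map, without forms.

## The definitions

A closed subset of projective space is given by homogeneous polynomials (`IsClosedSet`).  The
dimension of a countable union of closed sets of families of points is measured by the number of
algebraically independent ratios of homogeneous coordinates over arbitrary countable fields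
(`DimGE`, `dim`).  Two effective zero-cycles of degree `n` are joined (`Joined`) if they are the
values at `0` and `∞` of a morphism from the projective line to the symmetric product `Sⁿ(X)`, which
is described by Chow forms; the group `B X` is the free abelian group on `X` modulo the differences
of joined zero-cycles.  Morphisms from `X` to symmetric products of `Y` are given by polynomials and
Chow forms (`IsMorphism`).

## The proof

All the statements on rational equivalence used are proved in the imported files; see the file
`Pool/Agent/Results/MP_13bc1c_ag/LargeOrbits.lean` for the main steps.  Here one needs in addition
that having the same image under `φ` is stable under specialisation: the points of the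
zero-cycle `f(x)` specialise to the points of the zero-cycle `f(x')`.
-/

set_option autoImplicit false

namespace Pool.Agent.Results.MP_31564d_ag.LargeFibresOfHoms

open Pool.Agent.Y148.OD

/-- **One large fibre.** Let `X` be an irreducible projective surface and `Y` a projective variety over
the complex numbers and `φ : B(X) → B(Y)` a homomorphism given by morphisms from `X` to symmetric
products of `Y`.  The following are equivalent: the codimensions of the fibres of `φ ∘ γ` on `Xⁿ` are
bounded independently of `n`; for one `n` all fibres of `φ ∘ γ` are positive-dimensional; for one `n`
one fibre of `φ ∘ γ` has dimension greater than `n`. -/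
theorem result {r s : ℕ} {X : Set (Pt r)} (hX : IsVariety X 2) {Y : Set (Pt s)}
    (hY : IsClosedSet Y) (φ : B X →+ B Y) (hφ : IsAlgebraicHom X Y φ) :
    List.TFAE
      [∃ c : ℕ, ∀ (n : ℕ) (x : Fin n → X), 2 * n ≤ dim (fibreHom φ x) + c,
       ∃ n : ℕ, ∀ x : Fin n → X, 0 < dim (fibreHom φ x),
       ∃ (n : ℕ) (x : Fin n → X), n < dim (fibreHom φ x)] := by
  have h := hom_tfae stmComp stmCurve stmStab (le_refl 2) hX hY hφ
  simpa using h

end Pool.Agent.Results.MP_31564d_ag.LargeFibresOfHoms
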