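import Pool.Agent.Y152.AS.Sq

/-!
# Bloch's conjecture for compositions of two correspondences on surfaces of CM type dominated by
abelian surfaces
-/

open CategoryTheory AlgebraicGeometry

universe u v w

namespace Pool.Agent.Results.MP_31564d_ag.SquareZeroCM

open Pool.Agent.H914 Pool.Agent.H914.VarClass Pool.Agent.H914.VarClass.Obj Pool.Agent.W492.BB
  Pool.Agent.W550.Corr Pool.Agent.TH133 Pool.Agent.Y152.AS

/-- Let `X` be a surface which is dominated by an abelian surface `A` and which has an
antisymmetric self-correspondence `Y - ᵗY` which is not homologically equivalent to a degenerate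
one (over `ℂ`: the field `End(T(X))` is a CM field). If `Z` and `W` are any self-correspondences of
`X` which are homologically equivalent to degenerate ones, then the composition of `Z` and `W` acts
as zero on the Albanese kernel of `X`. -/
theorem result {k : Type u} [Field k] {𝒱 : VarClass k} {C : TheoryData.{u, v, 0} 𝒱 ℚ}
    [IsChowProj C] {K : Type w} [Field K] (H : WeilTheoryData.{u, v, w} C K) [IsWeilProj H]
    (A : 𝒱.Obj) [GroupLaw A] (θ : C.A A) (hA : IsAbelianSurface H A θ)
    (X : 𝒱.Obj) (hX : IsDominatedBy C A X) (hE : EndIsField H X)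
    (Y : C.A (X.prod X)) (hY : C.Deg 2 Y) (hcm : ¬ IsHomDegenerate H (antisym C Y))
    (Z W : C.A (X.prod X)) (hZ : C.Deg 2 Z) (hW : C.Deg 2 W) (hZd : IsHomDegenerate H Z)
    (hWd : IsHomDegenerate H W) : KillsAlbKer C (C.comp Z W) := by
  intro α hα
  obtain ⟨hd, b, N, hb, hN, hdom⟩ := hX
  rw [C.act_comp]
  exact sq_act hd (setup hA hd b hb hN (fun α hα => hdom α (inAlbKer_iff.2 hα))
    hE.fieldMod) hE hY hcm hZ hZd.homDeg hW hWd.homDeg (inAlbKer_iff.1 hα)

end Pool.Agent.Results.MP_31564d_ag.SquareZeroCM
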